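import Mathlib

namespace Pool.Agent.Lib.MP_8d7a8d_co

/-- The Avoider-Enforcer game on the hypergraph with edge set `E`.
`EnforcerWins E U A t`: Enforcer has a winning strategy from the position in which `U` is the set
of unpicked vertices, `A` is the set of vertices picked so far by Avoider, and the player to move
is Avoider if `t = true`, Enforcer if `t = false`. -/
inductive EnforcerWins {V : Type} [DecidableEq V] (E : Finset (Finset V)) :
    Finset V → Finset V → Bool → Prop
  | over (A : Finset V) (t : Bool) :
      (∃ e ∈ E, e ⊆ A) → EnforcerWins E ∅ A t
  | enforcerMove (U A : Finset V) (v : V) :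
      v ∈ U → EnforcerWins E (U.erase v) A true → EnforcerWins E U A false
  | avoiderMove (U A : Finset V) :
      U.Nonempty → (∀ v ∈ U, EnforcerWins E (U.erase v) (insert v A) false) →
        EnforcerWins E U A true

end Pool.Agent.Lib.MP_8d7a8d_co
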