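import Pool.Agent.Lib.MP_8d7a8d_co.Game

namespace Pool.Agent.Lib.MP_8d7a8d_co

open Finset

variable {V : Type} [DecidableEq V] {E : Finset (Finset V)}

inductive RF (E : Finset (Finset V)) (a : V) (U : Finset V) : Finset V → Prop
  | nil : RF E a U ∅
  | cons (T : Finset V) (p q : V) (f : Finset V) : RF E a U T → p ≠ q → p ∉ T → q ∉ T →
      p ∈ U → q ∈ U → f ∈ E → p ∈ f → q ∈ f → f ⊆ insert a (insert p (insert q T)) →
      (a ∈ f → T = ∅) → (a ∉ f → T.Nonempty) → RF E a U (insert p (insert q T))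

def ROb (E : Finset (Finset V)) (a : V) (U Z : Finset V) : Prop :=
  ∃ T q e, RF E a U T ∧ q ∉ T ∧ q ∈ U ∧ e ∈ E ∧ q ∈ e ∧ e ⊆ insert a (insert q T) ∧
    Z = insert q T

theorem RF.frozen {a : V} {U T : Finset V} (h : RF E a U T) : Frozen E {a} T := by
  induction h with
  | nil => exact Frozen.nil
  | cons T p q f _ hpq hp hq _ _ hf hpf hqf hsub _ _ ih =>
    exact Frozen.cons T p q f ih hpq hp hq hf hpf hqf (by rwa [← insert_eq])

theorem RF.sub {a : V} {U T : Finset V} (h : RF E a U T) : T ⊆ U := by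
  induction h with
  | nil => exact empty_subset _
  | cons T p q f _ hpq hp hq hpU hqU hf hpf hqf hsub _ _ ih =>
    exact insert_subset hpU (insert_subset hqU ih)

theorem ROb.obs {a : V} {U Z : Finset V} (h : ROb E a U Z) : Obs E {a} Z := by
  obtain ⟨T, q, e, hT, hq, _, he, hqe, hsub, rfl⟩ := h
  exact ⟨T, q, e, hT.frozen, hq, he, hqe, by rwa [← insert_eq], rfl⟩

theorem ROb.sub {a : V} {U Z : Finset V} (h : ROb E a U Z) : Z ⊆ U := by
  obtain ⟨T, q, e, hT, hq, hqU, he, hqe, hsub, rfl⟩ := h
  exact insert_subset hqU hT.sub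

theorem third {g : Finset V} {x y z : V} (hg : g.card ≤ 3) (hx : x ∈ g) (hy : y ∈ g)
    (hz : z ∈ g) (hxy : x ≠ y) (hxz : x ≠ z) (hyz : y ≠ z) : g = {x, y, z} := by
  symm
  apply eq_of_subset_of_card_le
  · intro w hw
    simp only [mem_insert, mem_singleton] at hw
    rcases hw with rfl | rfl | rfl <;> assumption
  · rw [card_insert_of_notMem (by simp [hxy, hxz]), card_insert_of_notMem (by simp [hyz])]
    simpa using hg

/-- an edge through `w` outside `T` meeting `T` -/
theorem two_cases {a w t : V} {T g : Finset V} (hg : g.card ≤ 3) (hw : w ∈ g) (ht : t ∈ g)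
    (htT : t ∈ T) (hwT : w ∉ T) :
    g ⊆ insert a (insert w T) ∨ ∃ s, s ≠ w ∧ s ∉ T ∧ s ≠ a ∧ g = {t, w, s} := by
  by_cases h : g ⊆ insert a (insert w T)
  · exact Or.inl h
  · right
    obtain ⟨s, hs, hs'⟩ := not_subset.mp h
    simp only [mem_insert, not_or] at hs'
    refine ⟨s, hs'.2.1, hs'.2.2, hs'.1, third hg ht hw hs ?_ ?_ (Ne.symm hs'.2.1)⟩
    · rintro rfl; exact hwT htT
    · rintro rfl; exact hs'.2.2 htT

theorem exists_ROb (hl : Lin E) (hr : ∀ e ∈ E, e.card ≤ 3) {a : V} {W : Finset V} (ha : a ∉ W)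
    (hdeg : ∀ w ∈ W, ∀ f, ∃ g ∈ E, g ≠ f ∧ w ∈ g ∧ g ⊆ insert a W)
    (hstart : ∃ g ∈ E, g ⊆ insert a W ∧ a ∈ g ∧ g ≠ {a}) : ∃ Z, ROb E a W Z := by
  classical
  by_contra hno
  push Not at hno
  obtain ⟨g, hg, hgW, hag, hga⟩ := hstart
  have hex : ∃ T, RF E a W T ∧ T.Nonempty := by
    have : ∃ p ∈ g, p ≠ a := by
      by_contra h
      push Not at h
      exact hga (eq_singleton_iff_unique_mem.mpr ⟨hag, h⟩)
    obtain ⟨p, hp, hpa⟩ := this
    have hpW : p ∈ W := by
      have := hgW hp
      simp only [mem_insert] at this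
      tauto
    by_cases h : g ⊆ insert a (insert p ∅)
    · exact absurd ⟨∅, p, g, RF.nil, by simp, hpW, hg, hp, h, rfl⟩ (hno _)
    · obtain ⟨q, hq, hq'⟩ := not_subset.mp h
      simp only [mem_insert, not_or] at hq'
      have hqW : q ∈ W := by
        have := hgW hq
        simp only [mem_insert] at this
        tauto
      have hge := third (hr g hg) hag hp hq (Ne.symm hpa) (Ne.symm hq'.1) (Ne.symm hq'.2.1)
      refine ⟨insert p (insert q ∅), RF.cons ∅ p q g RF.nil (Ne.symm hq'.2.1) (by simp) (by simp)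
        hpW hqW hg hp hq (by rw [hge]; intro x hx; simpa using hx) (fun _ => rfl)
        (fun h => absurd hag h), by simp⟩
  obtain ⟨T, hTmem, hmax⟩ := exists_max_image
    (W.powerset.filter (fun T => RF E a W T ∧ T.Nonempty)) card
    (by
      obtain ⟨T, hT, hne⟩ := hex
      exact ⟨T, by simp [hT, hne, hT.sub]⟩)
  simp only [mem_filter, mem_powerset] at hTmem hmax
  obtain ⟨hTW, hT, hne⟩ := hTmem
  have hT0 := hT
  cases hT with
  | nil => simp at hne
  | cons T p q f hT' hpq hp hq hpU hqU hf hpf hqf hsub _ _ =>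
    obtain ⟨g, hg, hgf, hpg, hgW⟩ := hdeg p hpU f
    have hqg : q ∉ g := fun h => hgf (hl g hg f hf p q hpq hpg h hpf hqf)
    by_cases h : g ⊆ insert a (insert p T)
    · exact hno _ ⟨T, p, g, hT', hp, hpU, hg, hpg, h, rfl⟩
    · obtain ⟨w, hw, hw'⟩ := not_subset.mp h
      simp only [mem_insert, not_or] at hw'
      have hwW : w ∈ W := by
        have := hgW hw
        simp only [mem_insert] at this
        tauto
      have hwT : w ∉ insert p (insert q T) := by
        simp only [mem_insert, not_or]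
        exact ⟨hw'.2.1, fun h => hqg (h ▸ hw), hw'.2.2⟩
      rcases two_cases (a := a) (hr g hg) hw hpg (mem_insert_self _ _) hwT with h | ⟨s, hsw, hsT, hsa, hge⟩
      · exact hno _ ⟨_, w, g, hT0, hwT, hwW, hg, hw, h, rfl⟩
      · have hs : s ∈ g := by rw [hge]; simp
        have hsW : s ∈ W := by
          have := hgW hs
          simp only [mem_insert] at this
          tauto
        have hag : a ∉ g := by
          rw [hge]
          simp only [mem_insert, mem_singleton, not_or]
          exact ⟨fun h => ha (h ▸ hpU), fun h => ha (h ▸ hwW), Ne.symm hsa⟩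
        have hnew : RF E a W (insert w (insert s (insert p (insert q T)))) :=
          RF.cons _ w s g hT0 (Ne.symm hsw) hwT hsT hwW hsW hg hw hs
            (by rw [hge]; intro x hx; simp only [mem_insert, mem_singleton] at hx ⊢; tauto)
            (fun h => absurd h hag) (fun _ => insert_nonempty _ _)
        have := hmax _ ⟨hnew.sub, hnew, insert_nonempty _ _⟩
        rw [card_insert_of_notMem (s := insert s _) (by simp only [mem_insert, not_or] at hwT ⊢; tauto),
          card_insert_of_notMem hsT] at this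
        omega

theorem RF.split {a : V} {U T : Finset V} (h : RF E a U T) :
    ∃ T' R : Finset V, RF E a U T' ∧ T' ⊆ T ∧ T ⊆ T' ∪ R ∧ R ⊆ T ∧ R.card ≤ 4 ∧
      (T' = ∅ ∨ T'.card + 4 ≤ T.card) := by
  cases h with
  | nil => exact ⟨∅, ∅, RF.nil, by simp, by simp, by simp, by simp, Or.inl rfl⟩
  | cons T p q f hT hpq hp hq hpU hqU hf hpf hqf hsub _ _ =>
    cases hT with
    | nil =>
      refine ⟨∅, insert p (insert q ∅), RF.nil, by simp, by simp, by simp, ?_, Or.inl rfl⟩
      have := card_insert_le p (insert q (∅ : Finset V))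
      have := card_insert_le q (∅ : Finset V)
      simp only [card_empty] at this
      omega
    | cons T p' q' f' hT hpq' hp' hq' hpU' hqU' hf' hpf' hqf' hsub' _ _ =>
      refine ⟨T, {p, q, p', q'}, hT, ?_, ?_, ?_, card_le_four, Or.inr ?_⟩
      · intro x hx; simp [hx]
      · intro x hx
        simp only [mem_insert, mem_union, mem_singleton] at hx ⊢
        tauto
      · intro x hx
        simp only [mem_insert, mem_singleton] at hx ⊢
        tauto
      · rw [card_insert_of_notMem (s := insert q _) (by simp only [mem_insert, not_or] at hp ⊢; tauto),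
          card_insert_of_notMem hq,
          card_insert_of_notMem (s := insert q' _) (by simp only [mem_insert, not_or]; tauto),
          card_insert_of_notMem hq']

/-- two edges through an outside vertex meeting `T` -/
theorem small_of_outside (hl : Lin E) (hr : ∀ e ∈ E, e.card ≤ 3) {a w : V} {U T g g' : Finset V}
    (ha : a ∉ U) (hT : RF E a U T) (hwU : w ∈ U) (hwT : w ∉ T) (hg : g ∈ E) (hg' : g' ∈ E)
    (hne : g ≠ g') (hw : w ∈ g) (hw' : w ∈ g') (hgU : g ⊆ insert a U) (hgU' : g' ⊆ insert a U)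
    (hm : ∃ t ∈ T, t ∈ g) (hm' : ∃ t ∈ T, t ∈ g') :
    ∃ Z, ROb E a U Z ∧ Z.card ≤ T.card + 3 := by
  obtain ⟨t, htT, htg⟩ := hm
  obtain ⟨t', htT', htg'⟩ := hm'
  have hc : (insert w T).card ≤ T.card + 3 := by
    have := card_insert_le w T
    omega
  rcases two_cases (a := a) (hr g hg) hw htg htT hwT with h | ⟨s, hsw, hsT, hsa, hge⟩
  · exact ⟨_, ⟨T, w, g, hT, hwT, hwU, hg, hw, h, rfl⟩, hc⟩
  rcases two_cases (a := a) (hr g' hg') hw' htg' htT' hwT with h | ⟨s', hsw', hsT', hsa', hge'⟩
  · exact ⟨_, ⟨T, w, g', hT, hwT, hwU, hg', hw', h, rfl⟩, hc⟩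
  have hs : s ∈ g := by rw [hge]; simp
  have hs' : s' ∈ g' := by rw [hge']; simp
  have hsU : s ∈ U := by
    have := hgU hs
    simp only [mem_insert] at this
    tauto
  have hsU' : s' ∈ U := by
    have := hgU' hs'
    simp only [mem_insert] at this
    tauto
  have hss : s' ≠ s := by
    rintro rfl
    exact hne (hl g hg g' hg' w s' (Ne.symm hsw) hw hs hw' hs')
  have hag : a ∉ g := by
    rw [hge]
    simp only [mem_insert, mem_singleton, not_or]
    exact ⟨fun h => ha (h ▸ hT.sub htT), fun h => ha (h ▸ hwU), Ne.symm hsa⟩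
  have hnew : RF E a U (insert w (insert s T)) :=
    RF.cons _ w s g hT (Ne.symm hsw) hwT hsT hwU hsU hg hw hs
      (by rw [hge]; intro x hx; simp only [mem_insert, mem_singleton] at hx ⊢
          rcases hx with rfl | rfl | rfl <;> tauto)
      (fun h => absurd h hag) (fun _ => ⟨t, htT⟩)
  refine ⟨_, ⟨_, s', g', hnew, by simp only [mem_insert, not_or]; tauto, hsU', hg', hs', ?_, rfl⟩, ?_⟩
  · rw [hge']; intro x hx; simp only [mem_insert, mem_singleton] at hx ⊢
    rcases hx with rfl | rfl | rfl <;> tauto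
  · have := card_insert_le s' (insert w (insert s T))
    have := card_insert_le w (insert s T)
    have := card_insert_le s T
    omega

theorem small_of_inside (hl : Lin E) {a : V} {U T g g' : Finset V}
    (hT : RF E a U T) (hg : g ∈ E) (hg' : g' ∈ E)
    (hne : g ≠ g') (hw : a ∈ g) (hw' : a ∈ g') (ha : a ∉ U) (hgT : g ⊆ insert a T)
    (hgT' : g' ⊆ insert a T) (hm : ∃ t ∈ T, t ∈ g) (hm' : ∃ t ∈ T, t ∈ g') :
    ∃ Z, ROb E a U Z ∧ Z.card ≤ T.card := by
  induction hT with
  | nil => simp at hm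
  | cons T p q f hT hpq hp hq hpU hqU hf hpf hqf hsub hroot _ ih =>
    have hcard : (insert p (insert q T)).card = T.card + 2 := by
      rw [card_insert_of_notMem (s := insert q _) (by simp only [mem_insert, not_or]; tauto),
        card_insert_of_notMem hq]
    have aux : ∀ k : Finset V, k ∈ E → a ∈ k → k ⊆ insert a (insert p (insert q T)) →
        (∃ Z, ROb E a U Z ∧ Z.card ≤ (insert p (insert q T)).card) ∨ (k = f ∧ T = ∅) ∨
          (p ∉ k ∧ q ∉ k) := by
      intro k hk hak hkT
      by_cases hpk : p ∈ k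
      · by_cases hqk : q ∈ k
        · have := hl k hk f hf p q hpq hpk hqk hpf hqf
          exact Or.inr (Or.inl ⟨this, hroot (this ▸ hak)⟩)
        · left
          refine ⟨_, ⟨T, p, k, hT, hp, hpU, hk, hpk, ?_, rfl⟩, ?_⟩
          · intro x hx
            have := hkT hx
            simp only [mem_insert] at this ⊢
            rcases this with h | h | h | h
            · tauto
            · tauto
            · exact absurd (h ▸ hx) hqk
            · tauto
          · have := card_insert_le p T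
            omega
      · by_cases hqk : q ∈ k
        · left
          refine ⟨_, ⟨T, q, k, hT, hq, hqU, hk, hqk, ?_, rfl⟩, ?_⟩
          · intro x hx
            have := hkT hx
            simp only [mem_insert] at this ⊢
            rcases this with h | h | h | h
            · tauto
            · exact absurd (h ▸ hx) hpk
            · tauto
            · tauto
          · have := card_insert_le q T
            omega
        · exact Or.inr (Or.inr ⟨hpk, hqk⟩)
    have aux2 : ∀ k : Finset V, k ⊆ insert a (insert p (insert q T)) →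
        (∃ t ∈ insert p (insert q T), t ∈ k) → p ∉ k → q ∉ k →
        k ⊆ insert a T ∧ ∃ t ∈ T, t ∈ k := by
      intro k hkT hm hpk hqk
      constructor
      · intro x hx
        have := hkT hx
        simp only [mem_insert] at this ⊢
        rcases this with h | h | h | h
        · tauto
        · exact absurd (h ▸ hx) hpk
        · exact absurd (h ▸ hx) hqk
        · tauto
      · obtain ⟨t, ht, htk⟩ := hm
        simp only [mem_insert] at ht
        rcases ht with h | h | h
        · exact absurd (h ▸ htk) hpk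
        · exact absurd (h ▸ htk) hqk
        · exact ⟨t, h, htk⟩
    rcases aux g hg hw hgT with h | ⟨h1, h2⟩ | ⟨h1, h2⟩
    · exact h
    · rcases aux g' hg' hw' hgT' with h | ⟨h3, h4⟩ | ⟨h3, h4⟩
      · exact h
      · exact absurd (h1.trans h3.symm) hne
      · obtain ⟨-, t, ht, -⟩ := aux2 g' hgT' hm' h3 h4
        simp [h2] at ht
    · rcases aux g' hg' hw' hgT' with h | ⟨h3, h4⟩ | ⟨h3, h4⟩
      · exact h
      · obtain ⟨-, t, ht, -⟩ := aux2 g hgT hm h1 h2
        simp [h4] at ht
      · obtain ⟨b1, b2⟩ := aux2 g hgT hm h1 h2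
        obtain ⟨b3, b4⟩ := aux2 g' hgT' hm' h3 h4
        obtain ⟨Z, hZ, hc⟩ := ih b1 b3 b2 b4
        exact ⟨Z, hZ, by omega⟩

theorem small_of_root (hl : Lin E) (hr : ∀ e ∈ E, e.card ≤ 3) {a : V} {U T g g' : Finset V}
    (ha : a ∉ U) (hT : RF E a U T) (hg : g ∈ E) (hg' : g' ∈ E)
    (hne : g ≠ g') (hw : a ∈ g) (hw' : a ∈ g') (hgU : g ⊆ insert a U) (hgU' : g' ⊆ insert a U)
    (hm : ∃ t ∈ T, t ∈ g) (hm' : ∃ t ∈ T, t ∈ g') :
    ∃ Z, ROb E a U Z ∧ Z.card ≤ T.card + 3 := by
  have haT : a ∉ T := fun h => ha (hT.sub h)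
  have aux : ∀ k : Finset V, k ∈ E → a ∈ k → k ⊆ insert a U → (∃ t ∈ T, t ∈ k) →
      k ⊆ insert a T ∨ ∃ Z, ROb E a U Z ∧ Z.card ≤ T.card + 3 := by
    intro k hk hak hkU ⟨t, htT, htk⟩
    rcases two_cases (a := a) (hr k hk) hak htk htT haT with h | ⟨s, hsw, hsT, hsa, hge⟩
    · left
      rwa [insert_idem] at h
    · right
      have hs : s ∈ k := by rw [hge]; simp
      have hsU : s ∈ U := by
        have := hkU hs
        simp only [mem_insert] at this
        tauto
      refine ⟨_, ⟨T, s, k, hT, hsT, hsU, hk, hs, ?_, rfl⟩, ?_⟩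
      · rw [hge]; intro x hx; simp only [mem_insert, mem_singleton] at hx ⊢
        rcases hx with rfl | rfl | rfl <;> tauto
      · have := card_insert_le s T
        omega
  rcases aux g hg hw hgU hm with h | h
  · rcases aux g' hg' hw' hgU' hm' with h' | h'
    · obtain ⟨Z, hZ, hc⟩ := small_of_inside hl hT hg hg' hne hw hw' ha h h' hm hm'
      exact ⟨Z, hZ, by omega⟩
    · exact h'
  · exact h

theorem card_meeting_le (hl : Lin E) (w : V) (S : Finset V) (hw : w ∉ S) :
    (E.filter (fun e => w ∈ e ∧ ∃ s ∈ S, s ∈ e)).card ≤ S.card := by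
  induction S using Finset.induction_on with
  | empty => simp
  | insert s S hs ih =>
    have hws : w ≠ s := fun h => hw (h ▸ mem_insert_self _ _)
    have h1 := ih (fun h => hw (mem_insert_of_mem h))
    have h2 : (E.filter (fun e => w ∈ e ∧ s ∈ e)).card ≤ 1 := by
      rw [card_le_one]
      intro e he f hf
      simp only [mem_filter] at he hf
      exact hl e he.1 f hf.1 w s hws he.2.1 he.2.2 hf.2.1 hf.2.2
    have h3 : E.filter (fun e => w ∈ e ∧ ∃ s' ∈ insert s S, s' ∈ e) ⊆
        E.filter (fun e => w ∈ e ∧ s ∈ e) ∪ E.filter (fun e => w ∈ e ∧ ∃ s ∈ S, s ∈ e) := by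
      intro e he
      simp only [mem_filter, mem_union, mem_insert] at he ⊢
      obtain ⟨h1, h2, s', h3 | h3, h4⟩ := he
      · subst h3; tauto
      · exact Or.inr ⟨h1, h2, s', h3, h4⟩
    have := (card_le_card h3).trans (card_union_le _ _)
    rw [card_insert_of_notMem hs]
    omega

theorem two_obstructions [Fintype V] (hl : Lin E) (hr : ∀ e ∈ E, e.card ≤ 3)
    (hdeg : ∀ v : V, 9 ≤ (E.filter (fun e => v ∈ e)).card) {a : V} {U Y : Finset V}
    (ha : a ∉ U) (haY : a ∉ Y) (hUY : Disjoint U Y) (hY : Y.card ≤ 1)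
    (hall : ∀ v, v = a ∨ v ∈ U ∨ v ∈ Y) (hsing : {a} ∉ E) :
    ∃ Z₁ Z₂, Z₁ ⊆ U ∧ Z₂ ⊆ U ∧ Disjoint Z₁ Z₂ ∧ Obs E {a} Z₁ ∧ Obs E {a} Z₂ := by
  classical
  have good : ∀ (w : V) (W S T : Finset V), w ∉ S → S.card ≤ 6 →
      (∀ v, v = a ∨ v ∈ W ∨ v ∈ S ∨ v ∈ T) → Y ⊆ S →
      (∀ g ∈ E, ∀ g' ∈ E, w ∈ g → w ∈ g' → g ⊆ insert a U → g' ⊆ insert a U →
        (∃ t ∈ T, t ∈ g) → (∃ t ∈ T, t ∈ g') → g = g') →
      ∀ f, ∃ g ∈ E, g ≠ f ∧ w ∈ g ∧ g ⊆ insert a W := by
    intro w W S T hwS hS hcov hYS huniq f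
    have h1 := card_meeting_le hl w S hwS
    have h2 : (E.filter (fun e => w ∈ e ∧ e ⊆ insert a U ∧ ∃ t ∈ T, t ∈ e)).card ≤ 1 := by
      rw [card_le_one]
      intro e he e' he'
      simp only [mem_filter] at he he'
      exact huniq e he.1 e' he'.1 he.2.1 he'.2.1 he.2.2.1 he'.2.2.1 he.2.2.2 he'.2.2.2
    by_contra hcon
    push Not at hcon
    have h3 : E.filter (fun e => w ∈ e) ⊆
        insert f (E.filter (fun e => w ∈ e ∧ ∃ s ∈ S, s ∈ e) ∪
          E.filter (fun e => w ∈ e ∧ e ⊆ insert a U ∧ ∃ t ∈ T, t ∈ e)) := by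
      intro e he
      simp only [mem_filter, mem_union, mem_insert] at he ⊢
      by_cases hef : e = f
      · exact Or.inl hef
      right
      by_cases hS' : ∃ s ∈ S, s ∈ e
      · exact Or.inl ⟨he.1, he.2, hS'⟩
      right
      push Not at hS'
      obtain ⟨x, hx, hx'⟩ := not_subset.mp (hcon e he.1 hef he.2)
      simp only [mem_insert, not_or] at hx'
      refine ⟨he.1, he.2, ?_, x, ?_, hx⟩
      · intro y hy
        rcases hall y with h | h | h
        · simp [h]
        · simp [h]
        · exact absurd hy (hS' y (hYS h))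
      · rcases hcov x with h | h | h | h
        · exact absurd h hx'.1
        · exact absurd h hx'.2
        · exact absurd hx (hS' x h)
        · exact h
    have h4 := (card_le_card h3).trans (card_insert_le _ _)
    have h5 := card_union_le (E.filter (fun e => w ∈ e ∧ ∃ s ∈ S, s ∈ e))
      (E.filter (fun e => w ∈ e ∧ e ⊆ insert a U ∧ ∃ t ∈ T, t ∈ e))
    have := hdeg w
    omega
  have start : ∀ W : Finset V, (∀ f, ∃ g ∈ E, g ≠ f ∧ a ∈ g ∧ g ⊆ insert a W) →
      ∃ g ∈ E, g ⊆ insert a W ∧ a ∈ g ∧ g ≠ {a} := by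
    intro W h
    obtain ⟨g, hg, h1, h2, h3⟩ := h {a}
    exact ⟨g, hg, h3, h2, h1⟩
  have hcov0 : ∀ v, v = a ∨ v ∈ U ∨ v ∈ Y ∨ v ∈ (∅ : Finset V) := by
    intro v
    rcases hall v with h | h | h <;> tauto
  have hex : ∃ Z, ROb E a U Z := by
    apply exists_ROb hl hr ha
    · intro w hw
      exact good w U Y ∅ (disjoint_left.mp hUY hw) (by omega) hcov0 Subset.rfl (by simp)
    · exact start U (good a U Y ∅ haY (by omega) hcov0 Subset.rfl (by simp))
  obtain ⟨Z, hZmem, hmin⟩ := exists_min_image (univ.filter (fun Z => ROb E a U Z)) card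
    (by obtain ⟨Z, hZ⟩ := hex; exact ⟨Z, by simp [hZ]⟩)
  simp only [mem_filter, mem_univ, true_and] at hZmem hmin
  have hZ := hZmem
  obtain ⟨T, q, e, hT, hq, hqU, he, hqe, hsub, hZe⟩ := hZmem
  obtain ⟨T', R, hT', hT'T, hTR, hRT, hR, hsz⟩ := hT.split
  have hZc : Z.card = T.card + 1 := by rw [hZe, card_insert_of_notMem hq]
  have hScard : (Y ∪ insert q R).card ≤ 6 := by
    have := card_union_le Y (insert q R)
    have := card_insert_le q R
    omega
  have hcov : ∀ v, v = a ∨ v ∈ U \ Z ∨ v ∈ Y ∪ insert q R ∨ v ∈ T' := by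
    intro v
    rcases hall v with h | h | h
    · exact Or.inl h
    · by_cases hv : v ∈ Z
      · rw [hZe, mem_insert] at hv
        rcases hv with h' | h'
        · simp [h']
        · have := hTR h'
          simp only [mem_union, mem_insert] at this ⊢
          tauto
      · simp [h, hv]
    · simp [h]
  have hRZ : insert q R ⊆ Z := by
    rw [hZe]
    exact insert_subset_insert _ hRT
  have hex2 : ∃ Z', ROb E a (U \ Z) Z' := by
    apply exists_ROb hl hr (fun h => ha (mem_sdiff.mp h).1)
    · intro w hw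
      obtain ⟨hwU, hwZ⟩ := mem_sdiff.mp hw
      apply good w (U \ Z) (Y ∪ insert q R) T' _ hScard hcov subset_union_left
      · intro g hg g' hg' hwg hwg' hgU hgU' hm hm'
        by_contra hne
        have hwT : w ∉ T' := fun h => hwZ (hZe ▸ mem_insert_of_mem (hT'T h))
        obtain ⟨Z', hZ', hc⟩ := small_of_outside hl hr ha hT' hwU hwT hg hg' hne hwg hwg' hgU hgU' hm hm'
        have := hmin Z' hZ'
        rcases hsz with h | h
        · simp [h] at hm
        · omega
      · rw [mem_union, not_or]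
        exact ⟨disjoint_left.mp hUY hwU, fun h => hwZ (hRZ h)⟩
    · apply start
      apply good a (U \ Z) (Y ∪ insert q R) T' _ hScard hcov subset_union_left
      · intro g hg g' hg' hwg hwg' hgU hgU' hm hm'
        by_contra hne
        obtain ⟨Z', hZ', hc⟩ := small_of_root hl hr ha hT' hg hg' hne hwg hwg' hgU hgU' hm hm'
        have := hmin Z' hZ'
        rcases hsz with h | h
        · simp [h] at hm
        · omega
      · rw [mem_union, not_or]
        exact ⟨haY, fun h => ha (hZ.sub (hRZ h))⟩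
  obtain ⟨Z', hZ'⟩ := hex2
  refine ⟨Z, Z', hZ.sub, hZ'.sub.trans sdiff_subset, ?_, hZ.obs, hZ'.obs⟩
  exact disjoint_left.mpr fun x hx hx' => (mem_sdiff.mp (hZ'.sub hx')).2 hx

theorem after_avoider [Fintype V] (hl : Lin E) (hr : ∀ e ∈ E, e.card ≤ 3)
    (hdeg : ∀ v : V, 9 ≤ (E.filter (fun e => v ∈ e)).card) {U Y : Finset V}
    (hUY : Disjoint U Y) (hY : Y.card ≤ 1) (hall : ∀ v, v ∈ U ∨ v ∈ Y) (hne : U.Nonempty)
    (hev : Even U.card) : EnforcerWins E U ∅ true := by
  refine EnforcerWins.avoiderMove U ∅ hne fun a ha => ?_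
  have hc : (U.erase a).card + 1 = U.card := card_erase_add_one ha
  by_cases hs : {a} ∈ E
  · exact wins_of_edge _ _ _ _ rfl ⟨{a}, hs, by simp⟩
  · obtain ⟨Z₁, Z₂, h1, h2, hd, o1, o2⟩ := two_obstructions hl hr hdeg (a := a) (U := U.erase a)
      (Y := Y) (notMem_erase _ _) (disjoint_left.mp hUY ha)
      (hUY.mono_left (erase_subset _ _)) hY
      (by
        intro v
        by_cases hv : v = a
        · exact Or.inl hv
        · rcases hall v with h | h
          · exact Or.inr (Or.inl (mem_erase.mpr ⟨hv, h⟩))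
          · exact Or.inr (Or.inr h)) hs
    have := wins_of_two hl _ (U.erase a) {a} Z₁ Z₂ rfl (by simp) h1 h2 hd o1 o2
    have hodd : ¬ Even (U.erase a).card := by
      rw [← hc, Nat.even_add_one] at hev
      exact hev
    rw [decide_eq_false hodd] at this
    simpa using this

theorem main [Fintype V] [Nonempty V] (hl : Lin E) (hr : ∀ e ∈ E, e.card ≤ 3)
    (hdeg : ∀ v : V, 9 ≤ (E.filter (fun e => v ∈ e)).card) :
    EnforcerWins E univ ∅ (decide (Even (Fintype.card V))) := by
  by_cases hev : Even (Fintype.card V)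
  · rw [decide_eq_true hev]
    exact after_avoider hl hr hdeg (Y := ∅) (by simp) (by simp) (by simp) univ_nonempty
      (by simpa using hev)
  · rw [decide_eq_false hev]
    obtain ⟨y⟩ := ‹Nonempty V›
    refine EnforcerWins.enforcerMove univ ∅ y (mem_univ _) ?_
    have hc : ((univ : Finset V).erase y).card + 1 = Fintype.card V := by
      rw [card_erase_add_one (mem_univ _), card_univ]
    apply after_avoider hl hr hdeg (Y := {y}) (by simp) (by simp)
    · intro v
      by_cases h : v = y <;> simp [h]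
    · by_contra hemp
      rw [not_nonempty_iff_eq_empty] at hemp
      have hall : ∀ v : V, v = y := by
        intro v
        by_contra h
        have : v ∈ (univ : Finset V).erase y := by simp [h]
        rw [hemp] at this
        simp at this
      have h1 : (E.filter (fun e => y ∈ e)).card ≤ 1 := by
        rw [card_le_one]
        intro e he f hf
        simp only [mem_filter] at he hf
        ext x
        rw [hall x]
        simp [he.2, hf.2]
      have := hdeg y
      omega
    · rw [← hc, Nat.even_add_one, not_not] at hev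
      exact hev

end Pool.Agent.Lib.MP_8d7a8d_co
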