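import Pool.Agent.Lib.MP_8d7a8d_co.Defs

namespace Pool.Agent.Lib.MP_8d7a8d_co

open Finset

variable {V : Type} [DecidableEq V] {E : Finset (Finset V)}

def Lin (E : Finset (Finset V)) : Prop :=
  ∀ e ∈ E, ∀ f ∈ E, ∀ x y : V, x ≠ y → x ∈ e → y ∈ e → x ∈ f → y ∈ f → e = f

inductive Frozen (E : Finset (Finset V)) (A : Finset V) : Finset V → Prop
  | nil : Frozen E A ∅
  | cons (T : Finset V) (p q : V) (f : Finset V) : Frozen E A T → p ≠ q → p ∉ T → q ∉ T →
      f ∈ E → p ∈ f → q ∈ f → f ⊆ A ∪ insert p (insert q T) → Frozen E A (insert p (insert q T))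

def Obs (E : Finset (Finset V)) (A Z : Finset V) : Prop :=
  ∃ T q e, Frozen E A T ∧ q ∉ T ∧ e ∈ E ∧ q ∈ e ∧ e ⊆ A ∪ insert q T ∧ Z = insert q T

theorem Frozen.mono {A A' T : Finset V} (h : Frozen E A T) (hA : A ⊆ A') : Frozen E A' T := by
  induction h with
  | nil => exact Frozen.nil
  | cons T p q f _ hpq hp hq hf hpf hqf hsub ih =>
    exact Frozen.cons T p q f ih hpq hp hq hf hpf hqf
      (hsub.trans (union_subset_union_left hA))

theorem Frozen.even {A T : Finset V} (h : Frozen E A T) : Even T.card := by
  induction h with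
  | nil => simp
  | cons T p q f _ hpq hp hq hf hpf hqf hsub ih =>
    rw [card_insert_of_notMem (by simp [hpq, hp]), card_insert_of_notMem hq]
    obtain ⟨k, hk⟩ := ih
    exact ⟨k + 1, by omega⟩

theorem Obs.odd {A Z : Finset V} (h : Obs E A Z) : Odd Z.card := by
  obtain ⟨T, q, e, hT, hq, -, -, -, rfl⟩ := h
  rw [card_insert_of_notMem hq]
  exact hT.even.add_one

theorem Obs.mono {A A' Z : Finset V} (h : Obs E A Z) (hA : A ⊆ A') : Obs E A' Z := by
  obtain ⟨T, q, e, hT, hq, he, hqe, hsub, rfl⟩ := h
  exact ⟨T, q, e, hT.mono hA, hq, he, hqe, hsub.trans (union_subset_union_left hA), rfl⟩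

theorem Frozen.inner (hl : Lin E) {A A' T g : Finset V} (h : Frozen E A T) (hg : g ∈ E)
    (hA : A ⊆ A') (h1 : g ⊆ A' ∪ T) (h2 : ¬ g ⊆ A ∪ T) :
    g ⊆ A' ∨ ∃ Z, Z ⊆ T ∧ Obs E A' Z := by
  induction h with
  | nil => left; simpa using h1
  | cons T p q f hT hpq hp hq hf hpf hqf hsub ih =>
    by_cases hpg : p ∈ g
    · by_cases hqg : q ∈ g
      · exact absurd (hl g hg f hf p q hpq hpg hqg hpf hqf ▸ hsub) h2
      · right
        refine ⟨insert p T, insert_subset_insert _ (subset_insert _ _),
          T, p, g, hT.mono hA, hp, hg, hpg, ?_, rfl⟩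
        intro x hx
        have := h1 hx
        simp only [mem_union, mem_insert] at this ⊢
        rcases this with h | h | h | h
        · tauto
        · tauto
        · exact absurd (h ▸ hx) hqg
        · tauto
    · by_cases hqg : q ∈ g
      · right
        refine ⟨insert q T, subset_insert _ _, T, q, g, hT.mono hA, hq, hg, hqg, ?_, rfl⟩
        intro x hx
        have := h1 hx
        simp only [mem_union, mem_insert] at this ⊢
        rcases this with h | h | h | h
        · tauto
        · exact absurd (h ▸ hx) hpg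
        · tauto
        · tauto
      · have h1' : g ⊆ A' ∪ T := by
          intro x hx
          have := h1 hx
          simp only [mem_union, mem_insert] at this ⊢
          rcases this with h | h | h | h
          · tauto
          · exact absurd (h ▸ hx) hpg
          · exact absurd (h ▸ hx) hqg
          · tauto
        have h2' : ¬ g ⊆ A ∪ T := fun h => h2 (h.trans (union_subset_union_right
          ((subset_insert _ _).trans (subset_insert _ _))))
        rcases ih h1' h2' with h | ⟨Z, hZ, hO⟩
        · exact Or.inl h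
        · exact Or.inr ⟨Z, hZ.trans ((subset_insert _ _).trans (subset_insert _ _)), hO⟩

theorem Frozen.pick {A T : Finset V} {x : V} (h : Frozen E A T) (hx : x ∈ T) :
    ∃ Z, Z ⊆ T.erase x ∧ Obs E (insert x A) Z := by
  induction h with
  | nil => simp at hx
  | cons T p q f hT hpq hp hq hf hpf hqf hsub ih =>
    by_cases hxp : x = p
    · subst hxp
      refine ⟨insert q T, ?_, T, q, f, hT.mono (subset_insert _ _), hq, hf, hqf, ?_, rfl⟩
      · intro y hy
        simp only [mem_insert, mem_erase] at hy ⊢
        refine ⟨?_, Or.inr hy⟩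
        rintro rfl
        rcases hy with h | h
        · exact hpq h
        · exact hp h
      · intro y hy
        have := hsub hy
        simp only [mem_union, mem_insert] at this ⊢
        tauto
    · by_cases hxq : x = q
      · subst hxq
        refine ⟨insert p T, ?_, T, p, f, hT.mono (subset_insert _ _), hp, hf, hpf, ?_, rfl⟩
        · intro y hy
          simp only [mem_insert, mem_erase] at hy ⊢
          refine ⟨?_, by tauto⟩
          rintro rfl
          rcases hy with h | h
          · exact hxp h
          · exact hq h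
        · intro y hy
          have := hsub hy
          simp only [mem_union, mem_insert] at this ⊢
          tauto
      · have hxT : x ∈ T := by
          simp only [mem_insert] at hx
          tauto
        obtain ⟨Z, hZ, hO⟩ := ih hxT
        exact ⟨Z, hZ.trans (erase_subset_erase _
          ((subset_insert _ _).trans (subset_insert _ _))), hO⟩

theorem Obs.step (hl : Lin E) {A Z : Finset V} {x : V} (h : Obs E A Z) (hx : x ∈ Z)
    (hxA : x ∉ A) :
    (∃ e ∈ E, e ⊆ insert x A) ∨ ∃ Z', Z' ⊆ Z.erase x ∧ Obs E (insert x A) Z' := by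
  obtain ⟨T, q, e, hT, hq, he, hqe, hsub, rfl⟩ := h
  by_cases hxq : x = q
  · subst hxq
    have h1 : e ⊆ insert x A ∪ T := by
      intro y hy
      have := hsub hy
      simp only [mem_union, mem_insert] at this ⊢
      tauto
    have h2 : ¬ e ⊆ A ∪ T := fun h => by
      have := h hqe
      simp only [mem_union] at this
      tauto
    rcases hT.inner hl he (subset_insert x A) h1 h2 with h | ⟨Z, hZ, hO⟩
    · exact Or.inl ⟨e, he, h⟩
    · refine Or.inr ⟨Z, ?_, hO⟩
      rw [erase_insert hq]
      exact hZ
  · have hxT : x ∈ T := by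
      simp only [mem_insert] at hx
      tauto
    obtain ⟨Z, hZ, hO⟩ := hT.pick hxT
    exact Or.inr ⟨Z, hZ.trans (erase_subset_erase _ (subset_insert _ _)), hO⟩

theorem wins_of_edge (n : ℕ) : ∀ (U A : Finset V) (t : Bool), U.card = n →
    (∃ e ∈ E, e ⊆ A) → EnforcerWins E U A t := by
  induction n with
  | zero =>
    intro U A t hU h
    rw [card_eq_zero] at hU
    subst hU
    exact EnforcerWins.over A t h
  | succ n ih =>
    intro U A t hU h
    have hne : U.Nonempty := card_pos.mp (by omega)
    cases t with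
    | false =>
      obtain ⟨v, hv⟩ := hne
      exact EnforcerWins.enforcerMove U A v hv
        (ih _ _ _ (by rw [card_erase_of_mem hv]; omega) h)
    | true =>
      refine EnforcerWins.avoiderMove U A hne fun v hv => ih _ _ _
        (by rw [card_erase_of_mem hv]; omega) ?_
      obtain ⟨e, he, hA⟩ := h
      exact ⟨e, he, hA.trans (subset_insert _ _)⟩

theorem wins_of_two (hl : Lin E) (n : ℕ) : ∀ (U A Z₁ Z₂ : Finset V), U.card = n →
    Disjoint A U → Z₁ ⊆ U → Z₂ ⊆ U → Disjoint Z₁ Z₂ → Obs E A Z₁ → Obs E A Z₂ →
    EnforcerWins E U A (decide (Even n)) := by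
  induction n with
  | zero =>
    intro U A Z₁ Z₂ hU _ h1 _ _ hO _
    rw [card_eq_zero] at hU
    subst hU
    have := hO.odd
    rw [subset_empty.mp h1] at this
    simp at this
  | succ n ih =>
    intro U A Z₁ Z₂ hU hAU h1 h2 hd hO1 hO2
    by_cases hn : Even n
    · have hn' : ¬ Even (n + 1) := by simpa [Nat.even_add_one] using hn
      rw [decide_eq_false hn']
      have hne : ¬ U ⊆ Z₁ ∪ Z₂ := by
        intro h
        have hUe : U = Z₁ ∪ Z₂ := Subset.antisymm h (union_subset h1 h2)
        apply hn'
        rw [← hU, hUe, card_union_of_disjoint hd]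
        exact hO1.odd.add_odd hO2.odd
      obtain ⟨v, hv, hvZ⟩ := not_subset.mp hne
      simp only [mem_union, not_or] at hvZ
      refine EnforcerWins.enforcerMove U A v hv ?_
      have := ih (U.erase v) A Z₁ Z₂ (by rw [card_erase_of_mem hv]; omega)
        (hAU.mono_right (erase_subset _ _)) (subset_erase.mpr ⟨h1, hvZ.1⟩)
        (subset_erase.mpr ⟨h2, hvZ.2⟩) hd hO1 hO2
      rwa [decide_eq_true hn] at this
    · have hn' : Even (n + 1) := by simpa [Nat.even_add_one] using hn
      rw [decide_eq_true hn']
      refine EnforcerWins.avoiderMove U A (card_pos.mp (by omega)) fun v hv => ?_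
      have hc : (U.erase v).card = n := by rw [card_erase_of_mem hv]; omega
      have hvA : v ∉ A := fun h => disjoint_left.mp hAU h hv
      have hAU' : Disjoint (insert v A) (U.erase v) := by
        rw [disjoint_insert_left]
        exact ⟨notMem_erase _ _, hAU.mono_right (erase_subset _ _)⟩
      have key : ∀ Y₁ Y₂ : Finset V, Y₁ ⊆ U.erase v → Y₂ ⊆ U.erase v → Disjoint Y₁ Y₂ →
          Obs E (insert v A) Y₁ → Obs E (insert v A) Y₂ →
          EnforcerWins E (U.erase v) (insert v A) false := by
        intro Y₁ Y₂ a b c d e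
        have := ih (U.erase v) (insert v A) Y₁ Y₂ hc hAU' a b c d e
        rwa [decide_eq_false hn] at this
      by_cases hv1 : v ∈ Z₁
      · have hv2 : v ∉ Z₂ := disjoint_left.mp hd hv1
        rcases hO1.step hl hv1 hvA with h | ⟨Z, hZ, hO⟩
        · exact wins_of_edge _ _ _ _ hc h
        · exact key Z Z₂ (hZ.trans (erase_subset_erase _ h1)) (subset_erase.mpr ⟨h2, hv2⟩)
            (hd.mono_left (hZ.trans (erase_subset _ _))) hO (hO2.mono (subset_insert _ _))
      · by_cases hv2 : v ∈ Z₂
        · rcases hO2.step hl hv2 hvA with h | ⟨Z, hZ, hO⟩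
          · exact wins_of_edge _ _ _ _ hc h
          · exact key Z₁ Z (subset_erase.mpr ⟨h1, hv1⟩) (hZ.trans (erase_subset_erase _ h2))
              (hd.mono_right (hZ.trans (erase_subset _ _))) (hO1.mono (subset_insert _ _)) hO
        · exact key Z₁ Z₂ (subset_erase.mpr ⟨h1, hv1⟩) (subset_erase.mpr ⟨h2, hv2⟩) hd
            (hO1.mono (subset_insert _ _)) (hO2.mono (subset_insert _ _))

end Pool.Agent.Lib.MP_8d7a8d_co
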